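import Pool.Agent.H13.Cyc

namespace Pool.Agent.Results.MP_7e070a_pr.NoCutoff
open Finset Filter Topology Pool.Agent.H13.Cyc

/-- `λ_* = max_{j ≠ 0} |∑ x, μ x cos (2 π j x / n)|`. -/
noncomputable def lam {n : ℕ} [NeZero n] (μ : ZMod n → ℝ) : ℝ :=
  ⨆ j : {j : ZMod n // j ≠ 0}, |∑ x, μ x * Real.cos (2 * Real.pi * (j.1.val * x.val) / n)|

/-- Relaxation time. -/
noncomputable def Trel {n : ℕ} [NeZero n] (μ : ZMod n → ℝ) : ℝ := 1 / (1 - lam μ)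

theorem result : ∃ (n : ℕ → ℕ) (_ : ∀ k, NeZero (n k)) (μ : ∀ k, ZMod (n k) → ℝ),
    (∀ k, 2 ≤ n k) ∧ Tendsto n atTop atTop ∧
    (∀ k, (∀ x, 0 < μ k x) ∧ ∑ x, μ k x = 1 ∧ ∀ x, μ k (-x) = μ k x) ∧
    Tendsto (fun k => (Tmix (μ k) (1 / 4) : ℝ) / Trel (μ k)) atTop atTop ∧ ¬ Cutoff n μ := by
  obtain ⟨n, i, μ, h1, h2, h3, h4, h5, h6⟩ := H13.Cyc.seq
  refine ⟨n, i, μ, h1, h2, h3, tendsto_atTop_mono (fun k => ?_)
    (tendsto_natCast_atTop_atTop.atTop_mul_const (show (0 : ℝ) < 1 / 2 by norm_num)), h6⟩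
  have a : lam (μ k) ≤ 1 / 2 := Real.iSup_le (fun j => by
    refine le_trans (le_of_eq ?_) ((Complex.abs_re_le_norm _).trans (h4 k j.1 j.2))
    rw [Complex.re_sum]
    refine congrArg _ (sum_congr rfl fun x _ => ?_)
    rw [Complex.re_ofReal_mul, ← Complex.exp_ofReal_mul_I_re]
    congr 3
    push_cast
    ring) (by norm_num)
  have b : (k : ℝ) ≤ Tmix (μ k) (1 / 4) := by exact_mod_cast le_self_add.trans (h5 k).2
  rw [Trel, div_div_eq_mul_div, div_one]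
  exact mul_le_mul b (by linarith) (by norm_num) (by positivity)

end Pool.Agent.Results.MP_7e070a_pr.NoCutoff
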